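import Mathlib
import Pool.Agent.Q281.MG.Ideal

set_option autoImplicit false

/-!
# Tutte polynomials of vertex contractions at a neighbourhood (MP_8e541a_co)
-/

namespace Pool.Agent.Results.MP_8e541a_co.InIdeal

open Pool.Agent.Q281.MG MvPolynomial

theorem comps_eq {V E : Type} (G : MGraph V E) (s : V) (A : Finset E) :
    G.comps A = K G {s} A := by
  apply cls_congr
  · intro a b h
    exact Relation.EqvGen.rel _ _ (Or.inr h)
  · rintro a b (⟨h1, h2⟩ | h)
    · rw [Set.mem_singleton_iff] at h1 h2
      rw [h1, h2]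
      exact Relation.EqvGen.refl _
    · exact Relation.EqvGen.rel _ _ h

theorem card_eq {V E : Type} (G : MGraph V E) (s : V) : Nat.card V = K G {s} ∅ := by
  rw [← comps_eq G s]
  refine Nat.card_congr ⟨fun v => Quot.mk _ v, Quot.lift id ?_, ?_, ?_⟩
  · rintro a b ⟨e, he, _⟩
    exact absurd he (Finset.notMem_empty _)
  · intro v
    rfl
  · rintro ⟨v⟩
    rfl

theorem tutte_eq {V E : Type} [Fintype V] [Fintype E] (G : MGraph V E) (s : V) :
    G.tutte = T G {s} Finset.univ := by
  classical
  rw [MGraph.tutte, T, Finset.powerset_univ]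
  refine Finset.sum_congr rfl fun A _ => ?_
  have h1 := K_anti G {s} {s} A Finset.univ subset_rfl (Finset.subset_univ _)
  have h2 := K_empty_le G {s} A
  have h3 := K_anti G {s} {s} ∅ A subset_rfl (Finset.empty_subset _)
  simp only [MGraph.rank, comps_eq G s, card_eq G s]
  congr 2
  · omega
  · omega

theorem comps_contract {V E : Type} (G : MGraph V E) (U : Set V)
    (A : Finset {e : E // (G.contract U).src e ≠ (G.contract U).dst e}) :
    (G.contract U).deleteLoops.comps A = K G U (A.map (Function.Embedding.subtype _)) := by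
  rw [MGraph.comps, K]
  have h1 : cls (fun x y : Quot (fun a b : V => a ∈ U ∧ b ∈ U) => ∃ a b, Quot.mk _ a = x ∧
      Quot.mk _ b = y ∧ ∃ e ∈ A.map (Function.Embedding.subtype _), G.src e = a ∧ G.dst e = b) =
      cls (rel G U (A.map (Function.Embedding.subtype _))) :=
    cls_quot (fun a b : V => a ∈ U ∧ b ∈ U)
      (fun a b => ∃ e ∈ A.map (Function.Embedding.subtype _), G.src e = a ∧ G.dst e = b)
  rw [← h1]
  apply cls_congr
  · rintro x y ⟨e, he, h2, h3⟩
    apply Relation.EqvGen.rel
    exact ⟨G.src e.1, G.dst e.1, h2, h3, e.1, Finset.mem_map.2 ⟨e, he, rfl⟩, rfl, rfl⟩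
  · rintro x y ⟨a, b, h2, h3, e, he, h4, h5⟩
    apply Relation.EqvGen.rel
    obtain ⟨e', he', rfl⟩ := Finset.mem_map.1 he
    refine ⟨e', he', ?_, ?_⟩
    · rw [← h2, ← h4]
      rfl
    · rw [← h3, ← h5]
      rfl

theorem quot_eq_iff {V : Type} (U : Set V) (a b : V) :
    (Quot.mk (fun a b : V => a ∈ U ∧ b ∈ U) a = Quot.mk _ b) ↔ (a = b ∨ (a ∈ U ∧ b ∈ U)) := by
  constructor
  · intro h
    have h1 := Quot.eqvGen_exact h
    clear h
    induction h1 with
    | rel x y h => exact Or.inr h
    | refl x => exact Or.inl rfl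
    | symm x y _ ih =>
      rcases ih with h | h
      · exact Or.inl h.symm
      · exact Or.inr ⟨h.2, h.1⟩
    | trans x y z _ _ ih1 ih2 =>
      rcases ih1 with rfl | h1
      · exact ih2
      · rcases ih2 with rfl | h2
        · exact Or.inr h1
        · exact Or.inr ⟨h1.1, h2.2⟩
  · rintro (h | h)
    · rw [h]
    · exact Quot.sound h

open Classical in
theorem tutte_contract {V E : Type} [Fintype V] [Fintype E] (G : MGraph V E) (U : Set V) :
    (G.contract U).deleteLoops.tutte = T G U (nl G U Finset.univ) := by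
  set f : {e : E // (G.contract U).src e ≠ (G.contract U).dst e} ↪ E :=
    Function.Embedding.subtype _ with hf
  have himg : (Finset.univ : Finset _).map f = nl G U Finset.univ := by
    ext e
    rw [Finset.mem_map, mem_nl]
    constructor
    · rintro ⟨e', _, rfl⟩
      refine ⟨Finset.mem_univ _, ?_⟩
      rw [← quot_eq_iff]
      exact e'.2
    · rintro ⟨_, h⟩
      rw [← quot_eq_iff] at h
      exact ⟨⟨e, h⟩, Finset.mem_univ _, rfl⟩
  have hcard : Nat.card (Quot (fun a b : V => a ∈ U ∧ b ∈ U)) = K G U ∅ := by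
    apply cls_congr
    · intro a b h
      exact Relation.EqvGen.rel _ _ (Or.inl h)
    · rintro a b (h | ⟨e, he, _⟩)
      · exact Relation.EqvGen.rel _ _ h
      · exact absurd he (Finset.notMem_empty _)
  rw [MGraph.tutte, T, ← himg]
  refine Finset.sum_bij (fun A _ => A.map f) ?_ ?_ ?_ ?_
  · intro A _
    rw [Finset.mem_powerset]
    exact Finset.map_subset_map.2 (Finset.subset_univ _)
  · intro A _ B _ h
    exact Finset.map_injective f h
  · intro B hB
    rw [Finset.mem_powerset] at hB
    obtain ⟨A, _, hA⟩ := Finset.subset_map_iff.1 hB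
    exact ⟨A, Finset.mem_univ _, hA.symm⟩
  · intro A _
    have h1 := K_anti G U U (A.map f) (Finset.univ.map f) subset_rfl
      (Finset.map_subset_map.2 (Finset.subset_univ _))
    have h2 := K_empty_le G U (A.map f)
    have h3 := K_anti G U U ∅ (A.map f) subset_rfl (Finset.empty_subset _)
    simp only [MGraph.rank, comps_contract, hcard]
    rw [← hf]
    rw [Finset.card_map] at h2 ⊢
    congr 2
    · omega
    · omega

open Classical in
/-- For every connected multigraph `G` with at least two vertices and every vertex `s`, the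
Tutte polynomial of `G` lies in the ideal of `ℚ[x, y]` generated by the Tutte polynomials of the
graphs obtained by contracting `W ∪ {s}` to a vertex and deleting all loops, `∅ ≠ W ⊆ N(s)`. -/
theorem result : ∀ (V E : Type) [Fintype V] [Fintype E] (G : MGraph V E) (s : V),
    G.comps Finset.univ = 1 → 2 ≤ Fintype.card V →
      G.tutte ∈ Ideal.span {P | ∃ W : Set V, W ⊆ G.nbrs s ∧ W.Nonempty ∧
        P = (G.contract (W ∪ {s})).deleteLoops.tutte} := by
  intro V E _ _ G s hconn hV
  rw [tutte_eq G s]
  have hV' : ∃ v, v ≠ s := by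
    by_contra h
    push Not at h
    have : Fintype.card V ≤ 1 := Fintype.card_le_one_iff.2 (fun a b => (h a).trans (h b).symm)
    omega
  have h1 := main G s hV' Finset.univ (by rw [← comps_eq]; exact hconn)
  refine Ideal.span_mono ?_ h1
  rintro P ⟨W, hW, hne, rfl⟩
  refine ⟨W, ?_, hne, ?_⟩
  · intro u hu
    obtain ⟨h2, e, _, h3⟩ := hW hu
    exact ⟨h2, e, h3⟩
  · rw [tutte_contract, Set.union_singleton]

end Pool.Agent.Results.MP_8e541a_co.InIdeal
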